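import Mathlib
import Pool.Agent.P.MP_7eb8f3_nt.Lin.Main

set_option autoImplicit false

/-- If all the numbers `a * b + 1` (`a ∈ A`, `b ∈ B`, `a ≠ b`) have their prime divisors in `S`,
then `min |A| |B| ≤ 5 |S| + 3`. -/
theorem Pool.Agent.Results.MP_7eb8f3_nt.LinearBound.result :
    ∀ S A B : Finset ℕ, (∀ p ∈ S, p.Prime) → (∀ a ∈ A, 0 < a) → (∀ b ∈ B, 0 < b) →
      (∀ a ∈ A, ∀ b ∈ B, a ≠ b → ∀ r : ℕ, r.Prime → r ∣ a * b + 1 → r ∈ S) →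
      min A.card B.card ≤ 5 * S.card + 3 :=
  Pool.Agent.P.MP_7eb8f3_nt.Lin.main
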