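import Mathlib
import Pool.Agent.P.MP_7eb8f3_nt.Main

set_option autoImplicit false

/-- For any two primes `p`, `q` there is no `{p, q}`-Diophantine quadruple. -/
theorem Pool.Agent.Results.MP_7eb8f3_nt.NoQuadruple.result :
    ∀ p q : ℕ, p.Prime → q.Prime →
      ¬ ∃ a : Fin 4 → ℕ, Function.Injective a ∧ (∀ i, 0 < a i) ∧
        ∀ i j, i ≠ j → ∀ r : ℕ, r.Prime → r ∣ a i * a j + 1 → r = p ∨ r = q := by
  rintro p q hp hq ⟨a, hinj, hpos, h⟩
  exact Pool.Agent.P.MP_7eb8f3_nt.no_nat hp hq a hinj hpos h
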